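import Pool.Agent.H38.RB.Targets
import Pool.Agent.H12.PF.MR

/-!
# MP_7ecdd4_nt: Mertens, upper bound
-/

set_option autoImplicit false

open Finset

namespace Pool.Agent.H38.RB

/-- (MER) Mertens, upper bound -/
theorem MER : T_MER := by
  obtain ⟨C, hC⟩ := Pool.Agent.H12.PF.mr
  refine ⟨max 0 (1 / 2 - Real.log (Real.log 2) + C), le_max_left _ _, fun X hX => ?_⟩
  have hN : 2 ≤ ⌊X⌋₊ := Nat.le_floor (by exact_mod_cast hX)
  set N := ⌊X⌋₊ with hNdef
  have h1 := hC 2 N le_rfl (by omega)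
  have h2 : (Finset.Icc 1 N).filter Nat.Prime = insert 2 ((Ioc 2 N).filter Nat.Prime) := by
    ext p
    simp only [mem_filter, mem_Icc, mem_insert, mem_Ioc]
    constructor
    · rintro ⟨⟨-, h⟩, hp⟩
      rcases hp.two_le.eq_or_lt with h' | h'
      · exact Or.inl h'.symm
      · exact Or.inr ⟨⟨h', h⟩, hp⟩
    · rintro (rfl | ⟨⟨h3, h4⟩, hp⟩)
      · exact ⟨⟨by norm_num, by omega⟩, Nat.prime_two⟩
      · exact ⟨⟨by omega, h4⟩, hp⟩
  have h3 : ∑ p ∈ (Finset.Icc 1 N).filter Nat.Prime, 1 / (p : ℝ) =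
      1 / 2 + ∑ q ∈ (Ioc 2 N).filter Nat.Prime, (1 : ℝ) / q := by
    rw [h2, sum_insert (by simp)]
    norm_num
  have hl2 : (0 : ℝ) < Real.log 2 := Real.log_pos (by norm_num)
  have hlN : (0 : ℝ) < Real.log N := Real.log_pos (by exact_mod_cast (by omega : 1 < N))
  have hNX : (N : ℝ) ≤ X := Nat.floor_le (by linarith)
  have h4 : Real.log (Real.log N) ≤ Real.log (Real.log X) :=
    Real.log_le_log hlN (Real.log_le_log (by positivity) hNX)
  have h5 : 1 / 2 - Real.log (Real.log 2) + C ≤ max 0 (1 / 2 - Real.log (Real.log 2) + C) :=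
    le_max_right _ _
  push_cast at h1
  rw [Real.log_div hlN.ne' hl2.ne'] at h1
  rw [h3]
  linarith

end Pool.Agent.H38.RB
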