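import Pool.Agent.H38.RB.Targets

/-!
# MP_7ecdd4_nt: lower bound for a coefficient from the primes in `T`
-/

set_option autoImplicit false

open MvPolynomial Pool.Agent.H21.UE

namespace Pool.Agent.H38.RB

/-- the coordinates used at the position `i` -/
def vv (i : Fin 3) : Fin 2 := if i = 2 then 1 else 0

/-- the variable used at the position `i` -/
def cc (i : Fin 3) : Fin 2 := if i = 1 then 1 else 0

theorem low_term_dvd (p : ℕ) (i : Fin 3) {m : ℕ} (x : Fin m → Fin 3 → ℤ)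
    (hx : ∀ h, x h 0 + x h 1 + x h 2 = 0) (J k : Fin m × Fin 2 →₀ ℕ) (a : Fin m → ℕ)
    (ha : ∀ h, (p : ℤ) ^ a h ∣ x h i) :
    (p : ℤ) ^ (∑ h, a h * (J (h, cc i) - k (h, 0))) ∣
      ∏ h, (((J (h, 0)).choose (k (h, 0)) : ℤ) * sg (vv i) (x h) ^ (J (h, 0) - k (h, 0)) *
        x h 1 ^ J (h, 1)) := by
  rw [← Finset.prod_pow_eq_pow_sum]
  refine Finset.prod_dvd_prod_of_dvd _ _ fun h _ => ?_
  rw [pow_mul]
  fin_cases i
  · have h1 : sg (vv 0) (x h) = x h 0 := by simp [vv, sg]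
    have h2 : cc 0 = 0 := by simp [cc]
    change ((p : ℤ) ^ a h) ^ (J (h, cc 0) - k (h, 0)) ∣ ((J (h, 0)).choose (k (h, 0)) : ℤ) *
      sg (vv 0) (x h) ^ (J (h, 0) - k (h, 0)) * x h 1 ^ J (h, 1)
    rw [h1, h2]
    exact ((pow_dvd_pow_of_dvd (ha h) _).mul_left _).mul_right _
  · have h2 : cc 1 = 1 := by simp [cc]
    change ((p : ℤ) ^ a h) ^ (J (h, cc 1) - k (h, 0)) ∣ ((J (h, 0)).choose (k (h, 0)) : ℤ) *
      sg (vv 1) (x h) ^ (J (h, 0) - k (h, 0)) * x h 1 ^ J (h, 1)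
    rw [h2]
    exact ((pow_dvd_pow_of_dvd (ha h) _).trans (pow_dvd_pow _ (Nat.sub_le _ _))).mul_left _
  · have h1 : sg (vv 2) (x h) = -x h 2 := by
      have := hx h
      simp only [vv, sg, if_true]
      norm_num
      linarith
    have h2 : cc 2 = 0 := by simp [cc]
    change ((p : ℤ) ^ a h) ^ (J (h, cc 2) - k (h, 0)) ∣ ((J (h, 0)).choose (k (h, 0)) : ℤ) *
      sg (vv 2) (x h) ^ (J (h, 0) - k (h, 0)) * x h 1 ^ J (h, 1)
    rw [h1, h2]
    exact ((pow_dvd_pow_of_dvd ((dvd_neg).2 (ha h)) _).mul_left _).mul_right _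

theorem low_weight {m : ℕ} (W L R ε : ℝ) (l : Fin m → ℝ) (r a J k : Fin m → ℕ) (hW : 0 ≤ W)
    (hr : ∀ h, 1 ≤ r h) (hl : ∀ h, 0 ≤ l h) (hR : ∀ h, R ≤ r h * l h) (hR0 : 0 < R)
    (ha : ∀ h, W * l h ≤ a h * L) (hJ : |∑ h, (J h : ℝ) / r h - m / 2| ≤ ε * m)
    (hk : ∑ h, (k h : ℝ) / r h ≤ ε * m) :
    W * R * (m / 2 - 2 * ε * m) ≤ ((∑ h, a h * (J h - k h) : ℕ) : ℝ) * L := by
  have h1 : ∀ h, W * R * ((J h : ℝ) / r h - (k h : ℝ) / r h) ≤
      ((a h * (J h - k h) : ℕ) : ℝ) * L := by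
    intro h
    have hr0 : (0 : ℝ) < r h := by exact_mod_cast hr h
    have h2 : (J h : ℝ) - k h ≤ ((J h - k h : ℕ) : ℝ) := by
      rw [sub_le_iff_le_add]
      exact_mod_cast (by omega : J h ≤ J h - k h + k h)
    have h3 : (0 : ℝ) ≤ ((J h - k h : ℕ) : ℝ) := Nat.cast_nonneg _
    calc W * R * ((J h : ℝ) / r h - (k h : ℝ) / r h)
        = W * (R / r h) * ((J h : ℝ) - k h) := by field_simp
      _ ≤ W * (R / r h) * ((J h - k h : ℕ) : ℝ) :=
          mul_le_mul_of_nonneg_left h2 (by positivity)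
      _ ≤ W * l h * ((J h - k h : ℕ) : ℝ) := by
          refine mul_le_mul_of_nonneg_right (mul_le_mul_of_nonneg_left ?_ hW) h3
          rw [div_le_iff₀ hr0]
          linarith [hR h]
      _ ≤ a h * L * ((J h - k h : ℕ) : ℝ) := mul_le_mul_of_nonneg_right (ha h) h3
      _ = ((a h * (J h - k h) : ℕ) : ℝ) * L := by
          rw [Nat.cast_mul]
          ring
  have h2 := Finset.sum_le_sum fun h (_ : h ∈ Finset.univ) => h1 h
  rw [← Finset.mul_sum, Finset.sum_sub_distrib, ← Finset.sum_mul, ← Nat.cast_sum] at h2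
  refine le_trans (mul_le_mul_of_nonneg_left ?_ (mul_nonneg hW hR0.le)) h2
  have h3 := (abs_le.1 hJ).1
  linarith

theorem LOW (hC : T_COEF) : T_LOW := by
  intro T c m x r P k ε R hT hW hx hR hε hr hRr hP hbal hne hk
  set g := (tw x P).coeff k with hg
  have hg1 : (1 : ℝ) ≤ |(g : ℝ)| := by
    have h1 : 1 ≤ |g| := Int.one_le_abs hne
    have h2 : ((1 : ℤ) : ℝ) ≤ ((|g| : ℤ) : ℝ) := by exact_mod_cast h1
    rwa [Int.cast_one, Int.cast_abs] at h2
  have hWs : 0 ≤ ∑ p ∈ T, c.W p := Finset.sum_nonneg hW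
  rcases lt_or_ge ((m : ℝ) / 2 - 2 * ε * m) 0 with hM | hM
  · exact (mul_nonpos_of_nonneg_of_nonpos (mul_nonneg hWs hR.le) hM.le).trans
      (Real.log_nonneg hg1)
  · have hlog : ∀ h, 0 ≤ Real.log (ht (x h)) := fun h => Real.log_natCast_nonneg _
    -- the exponents
    set N : ℕ → ℕ := fun p => ⌈c.W p * R * (m / 2 - 2 * ε * m) / Real.log p⌉₊ with hN
    have hNp : ∀ p ∈ T, (p : ℤ) ^ N p ∣ g := by
      intro p hp
      have hpr := hT p hp
      have hlp : 0 < Real.log p := Real.log_pos (by exact_mod_cast hpr.one_lt)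
      obtain ⟨-, hform⟩ := hC m x r P hP k hne
      rw [hg, hform (vv (c.σ p))]
      refine Finset.dvd_sum fun J hJ => Dvd.dvd.mul_left ?_ _
      refine dvd_trans (pow_dvd_pow _ ?_) (low_term_dvd p (c.σ p) x (fun h => (hx h).1.2.2) J k
        (fun h => (x h (c.σ p)).natAbs.factorization p) fun h => ?_)
      · refine Nat.ceil_le.2 ?_
        rw [div_le_iff₀ hlp]
        exact low_weight (c.W p) (Real.log p) R ε (fun h => Real.log (ht (x h))) r
          (fun h => (x h (c.σ p)).natAbs.factorization p) (fun h => J (h, cc (c.σ p)))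
          (fun h => k (h, 0)) (hW p hp) hr hlog hRr hR (fun h => (hx h).2.1 p hp)
          (hbal _ J hJ _) hk
      · have h1 := Nat.ordProj_dvd (x h (c.σ p)).natAbs p
        have h2 : ((p ^ (x h (c.σ p)).natAbs.factorization p : ℕ) : ℤ) ∣ x h (c.σ p) :=
          Int.natCast_dvd.2 h1
        exact_mod_cast h2
    have hprod : (∏ p ∈ T, (p : ℤ) ^ N p) ∣ g := by
      refine Finset.prod_dvd_of_coprime ?_ hNp
      intro p hp q hq hpq
      refine IsCoprime.pow ?_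
      exact Nat.isCoprime_iff_coprime.2 ((Nat.coprime_primes (hT p hp) (hT q hq)).2 hpq)
    have hle : ∏ p ∈ T, ((p : ℝ)) ^ N p ≤ |(g : ℝ)| := by
      have h1 : (∏ p ∈ T, (p : ℤ) ^ N p) ≤ |g| :=
        Int.le_of_dvd (abs_pos.2 hne) ((dvd_abs _ _).2 hprod)
      have h2 : (((∏ p ∈ T, (p : ℤ) ^ N p : ℤ)) : ℝ) ≤ ((|g| : ℤ) : ℝ) := by exact_mod_cast h1
      rw [Int.cast_abs] at h2
      push_cast at h2
      exact h2
    have hpos : ∀ p ∈ T, (0 : ℝ) < (p : ℝ) ^ N p := fun p hp => by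
      have := (hT p hp).pos
      positivity
    have hlogp : ∑ p ∈ T, (N p : ℝ) * Real.log p ≤ Real.log |(g : ℝ)| := by
      refine le_trans (le_of_eq ?_) (Real.log_le_log (Finset.prod_pos hpos) hle)
      rw [Real.log_prod (fun p hp => (hpos p hp).ne')]
      exact Finset.sum_congr rfl fun p _ => (Real.log_pow _ _).symm
    refine le_trans ?_ hlogp
    rw [mul_assoc, Finset.sum_mul]
    refine Finset.sum_le_sum fun p hp => ?_
    have hlp : 0 < Real.log p := Real.log_pos (by exact_mod_cast (hT p hp).one_lt)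
    have h1 : c.W p * R * (m / 2 - 2 * ε * m) / Real.log p ≤ (N p : ℝ) := Nat.le_ceil _
    rw [div_le_iff₀ hlp] at h1
    rw [← mul_assoc]
    exact h1

end Pool.Agent.H38.RB
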