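import Pool.Agent.H38.RB.Targets

/-!
# MP_7ecdd4_nt: a cell has no `m` solutions of large and rapidly growing heights
-/

set_option autoImplicit false

open MvPolynomial Pool.Agent.H21.UE

namespace Pool.Agent.H38.RB

/-- the choice of the degrees -/
theorem exists_degrees {m : ℕ} (hm : 1 ≤ m) (l : Fin m → ℝ) (ε K : ℝ) (hε : 0 < ε) (hε1 : ε ≤ 1)
    (hK : 0 < K) (hl : ∀ h, K ≤ l h) : ∃ (R : ℝ) (r : Fin m → ℕ), 0 < R ∧ (∀ h, 1 ≤ r h) ∧
      (∀ h, R ≤ r h * l h) ∧ (∀ h, r h * l h ≤ (1 + ε) * R) ∧ ∑ h, (r h : ℝ) ≤ 2 * m * R / K := by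
  have hl0 : ∀ h, 0 < l h := fun h => hK.trans_le (hl h)
  have hR : 0 < (∑ h, l h) / ε := by
    have : Nonempty (Fin m) := ⟨⟨0, hm⟩⟩
    exact div_pos (Finset.sum_pos (fun h _ => hl0 h) Finset.univ_nonempty) hε
  have hlR : ∀ h, l h ≤ ε * ((∑ h, l h) / ε) := by
    intro h
    rw [mul_div_cancel₀ _ hε.ne']
    exact Finset.single_le_sum (f := l) (fun i _ => (hl0 i).le) (Finset.mem_univ h)
  set R := (∑ h, l h) / ε with hRdef
  have h1 : ∀ h, R ≤ (⌈R / l h⌉₊ : ℝ) * l h := fun h => by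
    have := Nat.le_ceil (R / l h)
    rwa [div_le_iff₀ (hl0 h)] at this
  have h2 : ∀ h, (⌈R / l h⌉₊ : ℝ) * l h ≤ (1 + ε) * R := fun h => by
    have h3 := Nat.ceil_lt_add_one (div_pos hR (hl0 h)).le
    have h4 : (⌈R / l h⌉₊ : ℝ) * l h ≤ (R / l h + 1) * l h :=
      mul_le_mul_of_nonneg_right h3.le (hl0 h).le
    have h5 : (R / l h + 1) * l h = R + l h := by
      rw [add_mul, div_mul_cancel₀ _ (hl0 h).ne', one_mul]
    have h6 := hlR h
    linarith
  refine ⟨R, fun h => ⌈R / l h⌉₊, hR, fun h => Nat.ceil_pos.2 (div_pos hR (hl0 h)), h1, h2, ?_⟩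
  have h3 : ∀ h, (⌈R / l h⌉₊ : ℝ) ≤ 2 * R / K := by
    intro h
    rw [le_div_iff₀ hK]
    have h4 : (⌈R / l h⌉₊ : ℝ) * K ≤ (⌈R / l h⌉₊ : ℝ) * l h :=
      mul_le_mul_of_nonneg_left (hl h) (Nat.cast_nonneg _)
    have h5 : ε * R ≤ R := by nlinarith
    have := h2 h
    linarith
  calc ∑ h, ((⌈R / l h⌉₊ : ℕ) : ℝ) ≤ ∑ _h : Fin m, 2 * R / K :=
        Finset.sum_le_sum fun h _ => h3 h
    _ = 2 * m * R / K := by
        rw [Finset.sum_const, Finset.card_univ, Fintype.card_fin, nsmul_eq_mul]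
        ring

theorem MAIN (h1 : T_AUX.{0}) (h2 : T_NZ) (h3 : T_LOW) (h4 : T_UPP) : T_MAIN := by
  intro δ hδ hδ1
  obtain ⟨m₀, D, hD, hA⟩ := h1 (Fin 2) (Fin 2) A (δ / 20) (by positivity)
  set m : ℕ := max m₀ 1 with hm
  have hm1 : 1 ≤ m := le_max_right _ _
  have hm0 : (0 : ℝ) < m := by exact_mod_cast hm1
  obtain ⟨Ω, K, hΩ, hK, hN⟩ := h2 m hm1 (δ / 20 * m) (by positivity) D hD
  have hlD : 0 < Real.log (4 * D) := Real.log_pos (by linarith)
  set K' : ℝ := max K (40 * Real.log (4 * D) / (3 * δ) + 1) with hK'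
  have hK'1 : 1 ≤ K' := hK.trans (le_max_left _ _)
  have hK'0 : 0 < K' := by linarith
  refine ⟨m, Ω, K', hm1, hΩ, hK'1, ?_⟩
  intro T c hT hc x hx hKx hgap
  obtain ⟨R, r, hR, hr, hrR, hrR2, hsum⟩ := exists_degrees hm1 (fun h => Real.log (ht (x h)))
    (δ / 20) K' (by positivity) (by linarith) hK'0 hKx
  obtain ⟨P, hP0, hPh, hPl, hPb⟩ := hA m (le_max_left _ _) r hr
  obtain ⟨k, hk, hne⟩ := hN x r R P (fun h => (hx h).1)
    (fun h => (le_max_left _ _).trans (hKx h)) hgap hr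
    (fun h => ⟨hrR h, (hrR2 h).trans (by nlinarith)⟩) hP0 hPh hPl
  have hbal : ∀ v, ∀ J ∈ (subst (A v) P).support, ∀ i : Fin 2,
      |∑ h, (J (h, i) : ℝ) / r h - m / 2| ≤ δ / 20 * m := by
    intro v J hJ i
    have := hPb v J hJ i
    rw [Fintype.card_fin] at this
    exact_mod_cast this
  obtain ⟨hW, hw0, hw1, hsW⟩ := hc
  have hlow := h3 T c m x r P k (δ / 20) R hT hW hx hR (by positivity) hr hrR hPh hbal hne hk.le
  have hupp := h4 T c m x r P k (δ / 20) R D hw0 hw1 hx hR (by positivity) hD hr hrR hPh hPl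
    hbal hne hk.le
  have hsl : ∑ h, (r h : ℝ) * Real.log (ht (x h)) ≤ (1 + δ / 20) * R * m := by
    calc ∑ h, (r h : ℝ) * Real.log (ht (x h)) ≤ ∑ _h : Fin m, (1 + δ / 20) * R :=
          Finset.sum_le_sum fun h _ => hrR2 h
      _ = (1 + δ / 20) * R * m := by
          rw [Finset.sum_const, Finset.card_univ, Fintype.card_fin, nsmul_eq_mul]
          ring
  have hsr : (∑ h, (r h : ℝ)) * Real.log (4 * D) ≤ 2 * m * R / K' * Real.log (4 * D) :=
    mul_le_mul_of_nonneg_right hsum hlD.le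
  have hKD : 2 * m * R / K' * Real.log (4 * D) < 3 * δ / 20 * (m * R) := by
    have h5 : 40 * Real.log (4 * D) / (3 * δ) < K' :=
      (lt_add_one _).trans_le (le_max_right _ _)
    rw [div_lt_iff₀ (by positivity)] at h5
    have h6 : 2 * m * R / K' * Real.log (4 * D) = (m * R) * (2 * Real.log (4 * D) / K') := by
      ring
    have h7 : 2 * Real.log (4 * D) / K' < 3 * δ / 20 := by
      rw [div_lt_iff₀ hK'0]
      linarith
    rw [h6, mul_comm (3 * δ / 20)]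
    exact mul_lt_mul_of_pos_left h7 (by positivity)
  have hM : (2 + δ) * (R * ((m : ℝ) / 2 - 2 * (δ / 20) * m)) ≤
      (∑ p ∈ T, c.W p + c.w) * (R * ((m : ℝ) / 2 - 2 * (δ / 20) * m)) := by
    refine mul_le_mul_of_nonneg_right hsW (mul_nonneg hR.le ?_)
    nlinarith
  have hfin : (1 + δ / 5) * (m * R) ≤ (2 + δ) * (R * ((m : ℝ) / 2 - 2 * (δ / 20) * m)) := by
    have h8 : (2 + δ) * (R * ((m : ℝ) / 2 - 2 * (δ / 20) * m)) - (1 + δ / 5) * (m * R) =
        (m * R) * (δ * (1 - δ) / 10) := by ring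
    have h9 : 0 ≤ (m * R) * (δ * (1 - δ) / 10) := by
      have : 0 ≤ 1 - δ := by linarith
      positivity
    linarith
  nlinarith

end Pool.Agent.H38.RB
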