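import Pool.Agent.H38.RB.Targets

/-!
# MP_7ecdd4_nt: some coefficient of small index does not vanish
-/

set_option autoImplicit false

open MvPolynomial Pool.Agent.H21.UE

namespace Pool.Agent.H38.RB

/-- the height of `x₀ / x₁` is not small -/
theorem nz_not_ht {x : Fin 3 → ℤ} (hx : Adm x) (hK : 2 ≤ Real.log (ht x)) :
    ¬ Ht ((x 0 : ℚ) / (x 1 : ℚ)) (Real.exp (Real.log (ht x) / 2)) := by
  obtain ⟨h0, hc, hs⟩ := hx
  rintro ⟨d, hd, hdT, hint, hφ⟩
  have hx1 : (x 1 : ℚ) ≠ 0 := by exact_mod_cast h0 1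
  set T := Real.exp (Real.log (ht x) / 2) with hT
  obtain ⟨n, hn⟩ := IsIntegrallyClosed.isIntegral_iff.1 hint
  have hn' : (n : ℚ) = (d : ℚ) * ((x 0 : ℚ) / (x 1 : ℚ)) := by simpa using hn
  have hn2 : n * x 1 = d * x 0 := by
    have : (n : ℚ) * x 1 = d * x 0 := by
      rw [hn']
      field_simp
    exact_mod_cast this
  have hdvd : x 1 ∣ d := by
    have h1 : x 1 ∣ d * x 0 := ⟨n, by rw [← hn2]; ring⟩
    exact (hc 1 0 (by decide)).dvd_of_dvd_mul_right h1
  obtain ⟨e, he⟩ := hdvd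
  have he0 : e ≠ 0 := by
    rintro rfl
    exact hd (by rw [he, mul_zero])
  have he1 : 1 ≤ |e| := Int.one_le_abs he0
  have he2 : (1 : ℝ) ≤ |(e : ℝ)| := by exact_mod_cast he1
  have h1 : |(x 1 : ℝ)| ≤ T := by
    refine le_trans ?_ hdT
    have h2 : (d : ℝ) = (x 1 : ℝ) * e := by exact_mod_cast he
    rw [h2, abs_mul]
    exact le_mul_of_one_le_right (abs_nonneg _) he2
  have h2 : |(x 0 : ℝ)| ≤ T := by
    have h3 := hφ (algebraMap ℚ ℂ)
    have h4 : n = e * x 0 := by
      have h5 : n * x 1 = (e * x 0) * x 1 := by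
        rw [hn2, he]
        ring
      exact mul_right_cancel₀ (h0 1) h5
    have h6 : ((d : ℤ) : ℚ) * ((x 0 : ℚ) / (x 1 : ℚ)) = ((e * x 0 : ℤ) : ℚ) := by
      rw [← hn', h4]
    rw [h6] at h3
    have h7 : ‖(algebraMap ℚ ℂ) ((e * x 0 : ℤ) : ℚ)‖ = |(e : ℝ)| * |(x 0 : ℝ)| := by
      rw [map_intCast, Complex.norm_intCast, Int.cast_mul, abs_mul]
    rw [h7] at h3
    exact (le_mul_of_one_le_left (abs_nonneg _) he2).trans h3
  have hH : (ht x : ℝ) ≤ 2 * T := by
    have hT0 : 0 ≤ T := (Real.exp_pos _).le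
    have hx2 : |(x 2 : ℝ)| ≤ 2 * T := by
      have h3 : (x 2 : ℝ) = -((x 0 : ℝ) + x 1) := by
        have : x 2 = -(x 0 + x 1) := by linarith
        exact_mod_cast this
      rw [h3, abs_neg]
      exact (abs_add_le _ _).trans (by linarith)
    unfold ht
    rw [Nat.cast_max, Nat.cast_max, Nat.cast_natAbs, Nat.cast_natAbs, Nat.cast_natAbs,
      Int.cast_abs, Int.cast_abs, Int.cast_abs]
    exact max_le (by linarith) (max_le (by linarith) hx2)
  have hHpos : (0 : ℝ) < ht x := by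
    rcases (Nat.cast_nonneg (ht x) : (0 : ℝ) ≤ ht x).eq_or_lt with h | h
    · rw [← h, Real.log_zero] at hK
      linarith
    · exact h
  have h3 : Real.log (ht x) ≤ Real.log 2 + Real.log (ht x) / 2 := by
    have h4 := Real.log_le_log hHpos hH
    rwa [Real.log_mul (by norm_num) (Real.exp_pos _).ne', Real.log_exp] at h4
  have h4 := Real.log_two_lt_d9
  linarith

/-- the basis vectors -/
noncomputable def nzz {m : ℕ} (x : Fin m → Fin 3 → ℤ) (h : Fin m) (i : Fin 2) : Fin 2 → ℚ :=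
  if i = 0 then Pi.single 0 1 else ![(x h 0 : ℚ), (x h 1 : ℚ)]

theorem nz_inCoord {m : ℕ} (x : Fin m → Fin 3 → ℤ) (P : MvPolynomial (Fin m × Fin 2) ℤ) :
    inCoord (nzz x) P = map (Int.castRingHom ℚ) (tw x P) := by
  unfold inCoord tw
  induction P using MvPolynomial.induction_on with
  | C a =>
    simp only [eq_intCast, map_intCast]
  | add p q hp hq => rw [map_add, map_add, map_add, hp, hq]
  | mul_X p q hp =>
    rw [map_mul, map_mul, map_mul, hp, aeval_X, aeval_X]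
    congr 1
    obtain ⟨h, i⟩ := q
    fin_cases i
    · simp [nzz, Fin.sum_univ_two]
    · simp [nzz, Fin.sum_univ_two]

theorem nz_li {m : ℕ} (x : Fin m → Fin 3 → ℤ) (hx : ∀ h, x h 1 ≠ 0) (h : Fin m) :
    LinearIndependent ℚ (nzz x h) := by
  have h1 : (Matrix.of (nzz x h)).det ≠ 0 := by
    rw [Matrix.det_fin_two]
    simp [nzz, hx h]
  exact Matrix.linearIndependent_rows_of_det_ne_zero h1

/-- (NZ) -/
theorem NZ (h1 : T_ROTH.{0}) (h2 : T_SPEC.{0}) : T_NZ := by
  intro m hm θ hθ D hD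
  obtain ⟨ω, hω, hroth⟩ := h1 m hm θ hθ
  refine ⟨max 1 (2 / ω), max 2 (4 * (m * Real.log D + 1) / ω), le_max_left _ _,
    le_trans (by norm_num) (le_max_left _ _), ?_⟩
  intro x r R P hx hK hgap hr hrR hP0 hPh hPl
  by_contra hno
  push Not at hno
  have hx1 : ∀ h, x h 1 ≠ 0 := fun h => (hx h).1 1
  have hlD : 0 ≤ Real.log D := Real.log_nonneg hD
  have hK2 : ∀ h, 2 ≤ Real.log (ht (x h)) := fun h => (le_max_left _ _).trans (hK h)
  obtain ⟨p, hp0, hpd, hpl, hind⟩ := h2 ℚ m (Fin 2) (fun _ => 0) (fun _ => 1) r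
    (fun h => ![(x h 1 : ℚ), -(x h 0 : ℚ)]) (nzz x) P θ (fun _ => by decide) hr hP0 hPh
    (fun h => by simpa using hx1 h) (nz_li x hx1)
    (fun h i hi => by
      have hi' : i = 1 := by
        revert hi
        fin_cases i <;> simp
      subst hi'
      simp [nzz, Fin.sum_univ_two]
      ring)
    (fun J hJ => by
      by_contra hlt
      rw [not_le] at hlt
      have h3 := hno J hlt
      rw [mem_support_iff, nz_inCoord, coeff_map, h3] at hJ
      simp at hJ)
  have hp1 : 1 ≤ l1 p := by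
    obtain ⟨J, hJ⟩ := Finset.nonempty_of_ne_empty (fun h => hp0 (support_eq_empty.1 h))
    have h3 : (1 : ℝ) ≤ |((p.coeff J : ℤ) : ℝ)| := by
      exact_mod_cast Int.one_le_abs (mem_support_iff.1 hJ)
    unfold l1
    exact h3.trans (Finset.single_le_sum (f := fun J => |((p.coeff J : ℤ) : ℝ)|)
      (fun _ _ => abs_nonneg _) hJ)
  set K := max 2 (4 * (m * Real.log D + 1) / ω) with hKdef
  have hK0 : 0 < K := lt_of_lt_of_le (by norm_num) (le_max_left _ _)
  have hl0 : ∀ h, 0 < Real.log (ht (x h)) := fun h => hK0.trans_le (hK h)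
  have hR0 : 0 < R := by
    have h3 : (1 : ℝ) ≤ r ⟨0, hm⟩ := by exact_mod_cast hr ⟨0, hm⟩
    have h4 := (hrR ⟨0, hm⟩).2
    have h5 := hl0 ⟨0, hm⟩
    nlinarith
  have hrK : ∀ h, (r h : ℝ) ≤ 2 * R / K := by
    intro h
    rw [le_div_iff₀ hK0]
    exact (mul_le_mul_of_nonneg_left (hK h) (Nat.cast_nonneg _)).trans (hrR h).2
  refine hroth ℚ (fun h => (x h 0 : ℚ) / (x h 1 : ℚ)) r p
    (fun h => Real.exp (Real.log (ht (x h)) / 2)) hp0 hr ?_ hpd
    (fun h => Real.one_le_exp (by linarith [hK2 h])) (fun h => nz_not_ht (hx h) (hK2 h)) ?_ ?_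
  · intro h h' hh
    have h3 := hgap h h' hh
    have h4 : 2 / ω * Real.log (ht (x h')) ≤ Real.log (ht (x h)) :=
      (mul_le_mul_of_nonneg_right (le_max_right _ _) (hl0 h').le).trans h3
    have h5 := (hrR h).2
    have h6 := (hrR h').1
    have h7 : (r h : ℝ) * (2 / ω * Real.log (ht (x h'))) ≤ 2 * (r h' * Real.log (ht (x h'))) :=
      (mul_le_mul_of_nonneg_left h4 (Nat.cast_nonneg _)).trans (h5.trans (by linarith))
    have h8 : (r h : ℝ) * (2 / ω * Real.log (ht (x h'))) =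
        (r h * (2 / ω)) * Real.log (ht (x h')) := by ring
    have h9 : 2 * (r h' * Real.log (ht (x h'))) = (2 * r h') * Real.log (ht (x h')) := by ring
    rw [h8, h9] at h7
    have h10 := le_of_mul_le_mul_right h7 (hl0 h')
    have h11 : (r h : ℝ) * (2 / ω) = 2 * r h / ω := by ring
    rw [h11, div_le_iff₀ hω] at h10
    linarith
  · intro h h'
    rw [Real.log_exp]
    have h3 : Real.log (l1 p) ≤ (∑ h, (r h : ℝ)) * Real.log D := by
      have h4 := Real.log_le_log (by linarith) (hpl.trans hPl)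
      rw [Real.log_pow] at h4
      push_cast at h4
      exact h4
    have h4 : ∑ h, (r h : ℝ) ≤ m * (2 * R / K) := by
      calc ∑ h, (r h : ℝ) ≤ ∑ _h : Fin m, 2 * R / K := Finset.sum_le_sum fun h _ => hrK h
        _ = m * (2 * R / K) := by
            rw [Finset.sum_const, Finset.card_univ, Fintype.card_fin, nsmul_eq_mul]
    have h5 : (∑ h, (r h : ℝ)) * Real.log D ≤ m * (2 * R / K) * Real.log D :=
      mul_le_mul_of_nonneg_right h4 hlD
    have h6 := hrK h'
    have h7 : 4 * (m * Real.log D + 1) / ω ≤ K := le_max_right _ _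
    rw [div_le_iff₀ hω] at h7
    have h8 : m * (2 * R / K) * Real.log D + 2 * R / K =
        (2 * R) * ((m * Real.log D + 1) / K) := by ring
    have h9 : (m * Real.log D + 1) / K ≤ ω / 4 := by
      rw [div_le_iff₀ hK0]
      linarith
    have h10 : (2 * R) * ((m * Real.log D + 1) / K) ≤ (2 * R) * (ω / 4) :=
      mul_le_mul_of_nonneg_left h9 (by positivity)
    have h11 := (hrR h).1
    have h12 : ω * R ≤ ω * (r h * Real.log (ht (x h))) := mul_le_mul_of_nonneg_left h11 hω.le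
    linarith
  · have h3 : (fun h => -((![(x h 1 : ℚ), -(x h 0 : ℚ)] : Fin 2 → ℚ) 1 /
        (![(x h 1 : ℚ), -(x h 0 : ℚ)] : Fin 2 → ℚ) 0)) =
        fun h => (x h 0 : ℚ) / (x h 1 : ℚ) := by
      funext h
      simp [neg_div]
    rw [← h3]
    exact hind

end Pool.Agent.H38.RB
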