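import Pool.Agent.H38.RB.LBTargets

/-!
# Many violating tuples (MP_7ecdd4_nt): four terms

With `T = 30 t + 7` the four integers
`(5T+18)^5 T^4`, `-(5T+2)^5 (T+4)^4`, `3 (17T^2+68T+4)^3`, `(21T^2+84T+20)^3`
are pairwise coprime and have sum zero.
-/

set_option autoImplicit false

namespace Pool.Agent.H38.RB.LB.L3a

open Finset Pool.Agent.H38.AE.Statement

theorem radical_le {m k : ℤ} (e : ℕ) (hk : k ≠ 0) (h : m ∣ k ^ e) :
    (radical m : ℝ) ≤ |(k : ℝ)| := by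
  have hk0 : k.natAbs ≠ 0 := Int.natAbs_ne_zero.2 hk
  have hsub : m.natAbs.primeFactors ⊆ k.natAbs.primeFactors := by
    intro p hp
    have hpp := Nat.prime_of_mem_primeFactors hp
    have hpd := Nat.dvd_of_mem_primeFactors hp
    refine Nat.mem_primeFactors.2 ⟨hpp, ?_, hk0⟩
    have h1 : m.natAbs ∣ k.natAbs ^ e := by
      rw [← Int.natAbs_pow]
      exact Int.natAbs_dvd_natAbs.2 h
    exact hpp.dvd_of_dvd_pow (hpd.trans h1)
  have h2 : radical m ≤ k.natAbs := by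
    unfold radical
    refine (Finset.prod_le_prod_of_subset_of_one_le' hsub
      (fun p hp _ => (Nat.prime_of_mem_primeFactors hp).pos)).trans ?_
    exact Nat.le_of_dvd (Nat.pos_of_ne_zero hk0) (Nat.prod_primeFactors_dvd _)
  calc (radical m : ℝ) ≤ (k.natAbs : ℝ) := by exact_mod_cast h2
    _ = |(k : ℝ)| := by rw [Nat.cast_natAbs, Int.cast_abs]

/-- The four terms. -/
def tup (T : ℤ) : Fin 4 → ℤ :=
  ![(5 * T + 18) ^ 5 * T ^ 4, -((5 * T + 2) ^ 5 * (T + 4) ^ 4),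
    3 * (17 * T ^ 2 + 68 * T + 4) ^ 3, (21 * T ^ 2 + 84 * T + 20) ^ 3]

lemma cop_of_comb {a b u v N : ℤ} (hN : IsCoprime a N) (h : a * u + b * v = N) :
    IsCoprime a b := by
  obtain ⟨s, t, hst⟩ := hN
  refine ⟨s + t * u, t * v, ?_⟩
  rw [← h] at hst
  linear_combination hst

lemma cop_two_pow {a : ℤ} (k : ℕ) (h : a % 2 = 1) : IsCoprime a (2 ^ k) := by
  have h2 : IsCoprime a 2 := ⟨1, -(a / 2), by omega⟩
  exact h2.pow_right

lemma cop_three {a : ℤ} (h : a % 3 ≠ 0) : IsCoprime a 3 := by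
  rcases (by omega : a % 3 = 1 ∨ a % 3 = 2) with h1 | h1
  · exact ⟨1, -(a / 3), by omega⟩
  · exact ⟨-1, a / 3 + 1, by omega⟩

lemma cop_five {a : ℤ} (h : a % 5 ≠ 0) : IsCoprime a 5 := by
  rcases (by omega : a % 5 = 1 ∨ a % 5 = 2 ∨ a % 5 = 3 ∨ a % 5 = 4) with h1 | h1 | h1 | h1
  · exact ⟨1, -(a / 5), by omega⟩
  · exact ⟨-2, 2 * (a / 5) + 1, by omega⟩
  · exact ⟨2, -(2 * (a / 5)) - 1, by omega⟩
  · exact ⟨-1, a / 5 + 1, by omega⟩

section

variable {T : ℤ} (h6 : T % 6 = 1) (h5 : T % 5 = 2 ∨ T % 5 = 3)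
include h6 h5

/-- All pairwise coprimality statements between the four terms. -/
lemma pairwise_cop :
    IsCoprime ((5 * T + 18) ^ 5 * T ^ 4) ((5 * T + 2) ^ 5 * (T + 4) ^ 4) ∧
    IsCoprime ((5 * T + 18) ^ 5 * T ^ 4) (3 * (17 * T ^ 2 + 68 * T + 4) ^ 3) ∧
    IsCoprime ((5 * T + 18) ^ 5 * T ^ 4) ((21 * T ^ 2 + 84 * T + 20) ^ 3) ∧
    IsCoprime ((5 * T + 2) ^ 5 * (T + 4) ^ 4) (3 * (17 * T ^ 2 + 68 * T + 4) ^ 3) ∧
    IsCoprime ((5 * T + 2) ^ 5 * (T + 4) ^ 4) ((21 * T ^ 2 + 84 * T + 20) ^ 3) ∧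
    IsCoprime (3 * (17 * T ^ 2 + 68 * T + 4) ^ 3) ((21 * T ^ 2 + 84 * T + 20) ^ 3) := by
  have oA1 : (5 * T + 18) % 2 = 1 := by omega
  have oA2 : T % 2 = 1 := by omega
  have oB1 : (5 * T + 2) % 2 = 1 := by omega
  have oB2 : (T + 4) % 2 = 1 := by omega
  have hT2 : T ^ 2 % 2 = 1 := by
    rw [pow_two, Int.mul_emod, oA2]; norm_num
  have oC : (17 * T ^ 2 + 68 * T + 4) % 2 = 1 := by omega
  have oD : (21 * T ^ 2 + 84 * T + 20) % 2 = 1 := by omega
  have A1B1 : IsCoprime (5 * T + 18) (5 * T + 2) :=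
    cop_of_comb (u := 1) (v := -1) (cop_two_pow 4 oA1) (by ring)
  have A1B2 : IsCoprime (5 * T + 18) (T + 4) :=
    cop_of_comb (u := -1) (v := 5) (cop_two_pow 1 oA1) (by ring)
  have A2B1 : IsCoprime T (5 * T + 2) :=
    cop_of_comb (u := -5) (v := 1) (cop_two_pow 1 oA2) (by ring)
  have A2B2 : IsCoprime T (T + 4) :=
    cop_of_comb (u := -1) (v := 1) (cop_two_pow 2 oA2) (by ring)
  have A1t : IsCoprime (5 * T + 18) 3 := cop_three (by omega)
  have A2t : IsCoprime T 3 := cop_three (by omega)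
  have B1t : IsCoprime (5 * T + 2) 3 := cop_three (by omega)
  have B2t : IsCoprime (T + 4) 3 := cop_three (by omega)
  have A1C : IsCoprime (5 * T + 18) (17 * T ^ 2 + 68 * T + 4) :=
    cop_of_comb (u := 85 * T + 34) (v := -25) (cop_two_pow 9 oA1) (by ring)
  have A2C : IsCoprime T (17 * T ^ 2 + 68 * T + 4) :=
    cop_of_comb (u := -(17 * T + 68)) (v := 1) (cop_two_pow 2 oA2) (by ring)
  have B1C : IsCoprime (5 * T + 2) (17 * T ^ 2 + 68 * T + 4) :=
    cop_of_comb (u := 85 * T + 306) (v := -25) (cop_two_pow 9 oB1) (by ring)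
  have B2C : IsCoprime (T + 4) (17 * T ^ 2 + 68 * T + 4) :=
    cop_of_comb (u := -(17 * T)) (v := 1) (cop_two_pow 2 oB2) (by ring)
  have A1D : IsCoprime (5 * T + 18) (21 * T ^ 2 + 84 * T + 20) :=
    cop_of_comb (u := 105 * T + 42) (v := -25) (cop_two_pow 8 oA1) (by ring)
  have B1D : IsCoprime (5 * T + 2) (21 * T ^ 2 + 84 * T + 20) :=
    cop_of_comb (u := 105 * T + 378) (v := -25) (cop_two_pow 8 oB1) (by ring)
  have A2D : IsCoprime T (21 * T ^ 2 + 84 * T + 20) :=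
    cop_of_comb (u := -(21 * T + 84)) (v := 1)
      (IsCoprime.mul_right (cop_two_pow 2 oA2) (cop_five (by omega))) (by ring)
  have B2D : IsCoprime (T + 4) (21 * T ^ 2 + 84 * T + 20) :=
    cop_of_comb (u := -(21 * T)) (v := 1)
      (IsCoprime.mul_right (cop_two_pow 2 oB2) (cop_five (by omega))) (by ring)
  have tD : IsCoprime (3 : ℤ) (21 * T ^ 2 + 84 * T + 20) := ⟨7 * T ^ 2 + 28 * T + 7, -1, by ring⟩
  have CD : IsCoprime (17 * T ^ 2 + 68 * T + 4) (21 * T ^ 2 + 84 * T + 20) :=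
    cop_of_comb (u := -21) (v := 17) (cop_two_pow 8 oC) (by ring)
  refine ⟨?_, ?_, ?_, ?_, ?_, ?_⟩
  · exact IsCoprime.mul_left (IsCoprime.mul_right A1B1.pow A1B2.pow)
      (IsCoprime.mul_right A2B1.pow A2B2.pow)
  · exact IsCoprime.mul_left (IsCoprime.mul_right A1t.pow_left A1C.pow)
      (IsCoprime.mul_right A2t.pow_left A2C.pow)
  · exact IsCoprime.mul_left A1D.pow A2D.pow
  · exact IsCoprime.mul_left (IsCoprime.mul_right B1t.pow_left B1C.pow)
      (IsCoprime.mul_right B2t.pow_left B2C.pow)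
  · exact IsCoprime.mul_left B1D.pow B2D.pow
  · exact IsCoprime.mul_left tD.pow_right CD.pow

end

lemma tup_cop {T : ℤ} (h6 : T % 6 = 1) (h5 : T % 5 = 2 ∨ T % 5 = 3) (i j : Fin 4)
    (hij : i ≠ j) : Int.gcd (tup T i) (tup T j) = 1 := by
  rw [← Int.isCoprime_iff_gcd_eq_one]
  obtain ⟨h01, h02, h03, h12, h13, h23⟩ := pairwise_cop h6 h5
  fin_cases i <;> fin_cases j <;> simp only [tup] <;> first
    | exact absurd rfl hij
    | exact h01.neg_right
    | exact h01.symm.neg_left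
    | exact h02
    | exact h02.symm
    | exact h03
    | exact h03.symm
    | exact h12.neg_left
    | exact h12.symm.neg_right
    | exact h13.neg_left
    | exact h13.symm.neg_right
    | exact h23
    | exact h23.symm

lemma tup_sum (T : ℤ) : ∑ i, tup T i = 0 := by
  simp only [tup, Fin.sum_univ_four]
  simp
  ring


theorem prod_dvd (T : ℤ) : ∏ i, tup T i ∣ (3 * T * (5 * T + 18) * (5 * T + 2) * (T + 4) *
    (17 * T ^ 2 + 68 * T + 4) * (21 * T ^ 2 + 84 * T + 20)) ^ 5 := by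
  refine ⟨-(81 * T * (T + 4) * (17 * T ^ 2 + 68 * T + 4) ^ 2 * (21 * T ^ 2 + 84 * T + 20) ^ 2), ?_⟩
  simp only [tup, Fin.prod_univ_four]
  simp
  ring

/-- the parameter -/
def par (t : ℕ) : ℤ := 30 * (t : ℤ) + 7

theorem par_pos (t : ℕ) : 7 ≤ par t := by unfold par; omega

theorem par_six (t : ℕ) : par t % 6 = 1 := by unfold par; omega

theorem par_five (t : ℕ) : par t % 5 = 2 := by unfold par; omega

theorem fac_pos (t : ℕ) : 0 < par t ∧ 0 < 5 * par t + 18 ∧ 0 < 5 * par t + 2 ∧ 0 < par t + 4 ∧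
    0 < 17 * par t ^ 2 + 68 * par t + 4 ∧ 0 < 21 * par t ^ 2 + 84 * par t + 20 := by
  have h := par_pos t
  refine ⟨by linarith, by linarith, by linarith, by linarith, by positivity, by positivity⟩

theorem tup_inj {T T' : ℤ} (hT : 0 < T) (hT' : 0 < T') (h : tup T = tup T') : T = T' := by
  have h3 := congrFun h 3
  simp only [tup] at h3
  have h4 : (21 * T ^ 2 + 84 * T + 20) ^ 3 = (21 * T' ^ 2 + 84 * T' + 20) ^ 3 := by simpa using h3
  have h5 : 21 * T ^ 2 + 84 * T + 20 = 21 * T' ^ 2 + 84 * T' + 20 :=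
    (Odd.strictMono_pow (by decide : Odd 3)).injective h4
  have h6 : (T - T') * (21 * (T + T') + 84) = 0 := by linear_combination h5
  rcases mul_eq_zero.1 h6 with h7 | h7
  · linarith
  · exfalso
    linarith

/-- bounds for the factors -/
theorem fac_le (t : ℕ) : (par t : ℝ) ≤ 30 * ((t : ℝ) + 1) ∧
    5 * (par t : ℝ) + 18 ≤ 150 * ((t : ℝ) + 1) ∧ 5 * (par t : ℝ) + 2 ≤ 150 * ((t : ℝ) + 1) ∧
    (par t : ℝ) + 4 ≤ 30 * ((t : ℝ) + 1) ∧
    17 * (par t : ℝ) ^ 2 + 68 * (par t : ℝ) + 4 ≤ 20000 * ((t : ℝ) + 1) ^ 2 ∧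
    21 * (par t : ℝ) ^ 2 + 84 * (par t : ℝ) + 20 ≤ 22000 * ((t : ℝ) + 1) ^ 2 := by
  have ht : (0 : ℝ) ≤ t := Nat.cast_nonneg t
  have hp : (par t : ℝ) = 30 * (t : ℝ) + 7 := by unfold par; push_cast; ring
  rw [hp]
  refine ⟨by linarith, by linarith, by linarith, by linarith, by nlinarith, by nlinarith⟩

end Pool.Agent.H38.RB.LB.L3a

namespace Pool.Agent.H38.RB.LB

open L3a Finset Pool.Agent.H38.AE.Statement

/-- (L3) -/
theorem L3 : T_L3 := by
  refine ⟨10 ^ 18, fun t => tup (par t), by norm_num, ?_, ?_, ?_, ?_, ?_⟩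
  · intro t t' h
    have h1 := tup_inj (fac_pos t).1 (fac_pos t').1 h
    unfold par at h1
    have h2 : (t : ℤ) = t' := by linarith
    exact_mod_cast h2
  · intro t
    obtain ⟨p1, p2, p3, p4, p5, p6⟩ := fac_pos t
    refine ⟨?_, ?_, tup_sum _⟩
    · intro i
      fin_cases i
      · exact (mul_pos (pow_pos p2 5) (pow_pos p1 4)).ne'
      · exact neg_ne_zero.2 (mul_pos (pow_pos p3 5) (pow_pos p4 4)).ne'
      · exact (mul_pos (by norm_num) (pow_pos p5 3)).ne'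
      · exact (pow_pos p6 3).ne'
    · intro i j hij
      exact Int.isCoprime_iff_gcd_eq_one.2 (tup_cop (par_six t) (Or.inl (par_five t)) i j hij)
  · intro t i
    obtain ⟨p1, p2, p3, p4, p5, p6⟩ := fac_pos t
    obtain ⟨b1, b2, b3, b4, b5, b6⟩ := fac_le t
    have q1 : (0 : ℝ) < par t := by exact_mod_cast p1
    have hs : (1 : ℝ) ≤ (t : ℝ) + 1 := by linarith [Nat.cast_nonneg (α := ℝ) t]
    set s : ℝ := (t : ℝ) + 1 with hsdef
    set T : ℝ := (par t : ℝ) with hTdef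
    have h69 : s ^ 6 ≤ s ^ 9 := pow_le_pow_right₀ hs (by norm_num)
    fin_cases i
    · have h0 : ((tup (par t) 0 : ℤ) : ℝ) = (5 * T + 18) ^ 5 * T ^ 4 := by
        simp only [tup, hTdef]
        simp
      change |((tup (par t) 0 : ℤ) : ℝ)| ≤ _
      rw [h0, abs_of_nonneg (by positivity)]
      calc (5 * T + 18) ^ 5 * T ^ 4 ≤ (150 * s) ^ 5 * (30 * s) ^ 4 := by gcongr
        _ = (150 ^ 5 * 30 ^ 4) * s ^ 9 := by ring
        _ ≤ 10 ^ 18 * s ^ 9 := by gcongr; norm_num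
    · have h0 : ((tup (par t) 1 : ℤ) : ℝ) = -((5 * T + 2) ^ 5 * (T + 4) ^ 4) := by
        simp only [tup, hTdef]
        simp
      change |((tup (par t) 1 : ℤ) : ℝ)| ≤ _
      rw [h0, abs_neg, abs_of_nonneg (by positivity)]
      calc (5 * T + 2) ^ 5 * (T + 4) ^ 4 ≤ (150 * s) ^ 5 * (30 * s) ^ 4 := by gcongr
        _ = (150 ^ 5 * 30 ^ 4) * s ^ 9 := by ring
        _ ≤ 10 ^ 18 * s ^ 9 := by gcongr; norm_num
    · have h0 : ((tup (par t) 2 : ℤ) : ℝ) = 3 * (17 * T ^ 2 + 68 * T + 4) ^ 3 := by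
        simp only [tup, hTdef]
        simp
      change |((tup (par t) 2 : ℤ) : ℝ)| ≤ _
      rw [h0, abs_of_nonneg (by positivity)]
      calc 3 * (17 * T ^ 2 + 68 * T + 4) ^ 3 ≤ 3 * (20000 * s ^ 2) ^ 3 := by gcongr
        _ = (3 * 20000 ^ 3) * s ^ 6 := by ring
        _ ≤ 10 ^ 18 * s ^ 9 := by gcongr ?_ * ?_; norm_num
    · have h0 : ((tup (par t) 3 : ℤ) : ℝ) = (21 * T ^ 2 + 84 * T + 20) ^ 3 := by
        simp only [tup, hTdef]
        simp
      change |((tup (par t) 3 : ℤ) : ℝ)| ≤ _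
      rw [h0, abs_of_nonneg (by positivity)]
      calc (21 * T ^ 2 + 84 * T + 20) ^ 3 ≤ (22000 * s ^ 2) ^ 3 := by gcongr
        _ = (22000 ^ 3) * s ^ 6 := by ring
        _ ≤ 10 ^ 18 * s ^ 9 := by gcongr ?_ * ?_; norm_num
  · intro t
    refine ⟨0, ?_⟩
    have q1 : (0 : ℝ) ≤ par t := by exact_mod_cast (fac_pos t).1.le
    have h0 : ((tup (par t) 0 : ℤ) : ℝ) = (5 * (par t : ℝ) + 18) ^ 5 * (par t : ℝ) ^ 4 := by
      simp only [tup]
      simp
    have hT : (t : ℝ) + 1 ≤ par t := by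
      have : (par t : ℝ) = 30 * (t : ℝ) + 7 := by unfold par; push_cast; ring
      rw [this]
      linarith [Nat.cast_nonneg (α := ℝ) t]
    change _ ≤ |((tup (par t) 0 : ℤ) : ℝ)|
    rw [h0, abs_of_nonneg (by positivity)]
    calc ((t : ℝ) + 1) ^ 9 ≤ (par t : ℝ) ^ 9 := by gcongr
      _ = (par t : ℝ) ^ 5 * (par t : ℝ) ^ 4 := by ring
      _ ≤ (5 * (par t : ℝ) + 18) ^ 5 * (par t : ℝ) ^ 4 := by
          gcongr
          linarith
  · intro t
    obtain ⟨p1, p2, p3, p4, p5, p6⟩ := fac_pos t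
    obtain ⟨b1, b2, b3, b4, b5, b6⟩ := fac_le t
    have q1 : (0 : ℝ) < par t := by exact_mod_cast p1
    have hk : (3 * par t * (5 * par t + 18) * (5 * par t + 2) * (par t + 4) *
      (17 * par t ^ 2 + 68 * par t + 4) * (21 * par t ^ 2 + 84 * par t + 20)) ≠ 0 := by positivity
    refine (radical_le 5 hk (prod_dvd (par t))).trans ?_
    push_cast
    set s : ℝ := (t : ℝ) + 1 with hsdef
    have hs : (0 : ℝ) ≤ s := by positivity
    set T : ℝ := (par t : ℝ) with hTdef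
    rw [abs_of_nonneg (by positivity)]
    calc 3 * T * (5 * T + 18) * (5 * T + 2) * (T + 4) * (17 * T ^ 2 + 68 * T + 4) *
          (21 * T ^ 2 + 84 * T + 20)
        ≤ 3 * (30 * s) * (150 * s) * (150 * s) * (30 * s) * (20000 * s ^ 2) *
          (22000 * s ^ 2) := by gcongr
      _ = (3 * 30 * 150 * 150 * 30 * 20000 * 22000) * s ^ 8 := by ring
      _ ≤ 10 ^ 18 * s ^ 8 := by gcongr; norm_num

end Pool.Agent.H38.RB.LB
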