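import Pool.Agent.H38.RB.LBTargets

/-!
# Many violating tuples (MP_7ecdd4_nt): five terms

With `y = 210 (t + 1)` the integers `(y+1)^5`, `-(y-1)^5`, `-10 (y^2+1)^2`, `1`, `7` are pairwise
coprime and have sum zero.
-/

set_option autoImplicit false

namespace Pool.Agent.H38.RB.LB.L4a

open Finset Pool.Agent.H38.AE.Statement

theorem radical_le {m k : ℤ} (e : ℕ) (hk : k ≠ 0) (h : m ∣ k ^ e) :
    (radical m : ℝ) ≤ |(k : ℝ)| := by
  have hk0 : k.natAbs ≠ 0 := Int.natAbs_ne_zero.2 hk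
  have hsub : m.natAbs.primeFactors ⊆ k.natAbs.primeFactors := by
    intro p hp
    have hpp := Nat.prime_of_mem_primeFactors hp
    have hpd := Nat.dvd_of_mem_primeFactors hp
    refine Nat.mem_primeFactors.2 ⟨hpp, ?_, hk0⟩
    have h1 : m.natAbs ∣ k.natAbs ^ e := by
      rw [← Int.natAbs_pow]
      exact Int.natAbs_dvd_natAbs.2 h
    exact hpp.dvd_of_dvd_pow (hpd.trans h1)
  have h2 : radical m ≤ k.natAbs := by
    unfold radical
    refine (Finset.prod_le_prod_of_subset_of_one_le' hsub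
      (fun p hp _ => (Nat.prime_of_mem_primeFactors hp).pos)).trans ?_
    exact Nat.le_of_dvd (Nat.pos_of_ne_zero hk0) (Nat.prod_primeFactors_dvd _)
  calc (radical m : ℝ) ≤ (k.natAbs : ℝ) := by exact_mod_cast h2
    _ = |(k : ℝ)| := by rw [Nat.cast_natAbs, Int.cast_abs]

/-- The five terms. -/
def tup (y : ℤ) : Fin 5 → ℤ := ![(y + 1) ^ 5, -((y - 1) ^ 5), -(10 * (y ^ 2 + 1) ^ 2), 1, 7]

/-- the parameter -/
def par (t : ℕ) : ℤ := 210 * ((t : ℤ) + 1)

theorem tup_sum (y : ℤ) : ∑ i, tup y i = 0 := by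
  simp only [tup, Fin.sum_univ_five]
  simp
  ring

theorem cop_comb {a b u v N : ℤ} (hN : IsCoprime a N) (h : a * u + b * v = N) :
    IsCoprime a b := by
  obtain ⟨s, t, hst⟩ := hN
  refine ⟨s + t * u, t * v, ?_⟩
  rw [← h] at hst
  linear_combination hst

theorem cops (s : ℤ) : IsCoprime (210 * s + 1) (210 * s - 1) ∧
    IsCoprime (210 * s + 1) ((210 * s) ^ 2 + 1) ∧ IsCoprime (210 * s - 1) ((210 * s) ^ 2 + 1) ∧
    IsCoprime (210 * s + 1) 10 ∧ IsCoprime (210 * s - 1) 10 ∧ IsCoprime (210 * s + 1) 7 ∧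
    IsCoprime (210 * s - 1) 7 ∧ IsCoprime ((210 * s) ^ 2 + 1) 7 := by
  have h2 : IsCoprime (210 * s + 1) 2 := ⟨1, -(105 * s), by ring⟩
  have h2' : IsCoprime (210 * s - 1) 2 := ⟨-1, 105 * s, by ring⟩
  refine ⟨cop_comb (u := 1) (v := -1) h2 (by ring),
    cop_comb (u := -(210 * s - 1)) (v := 1) h2 (by ring),
    cop_comb (u := -(210 * s + 1)) (v := 1) h2' (by ring), ⟨1, -(21 * s), by ring⟩,
    ⟨-1, 21 * s, by ring⟩, ⟨1, -(30 * s), by ring⟩, ⟨-1, 30 * s, by ring⟩,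
    ⟨1, -(6300 * s ^ 2), by ring⟩⟩

theorem tup_cop_gen {y : ℤ} (h01 : IsCoprime (y + 1) (y - 1)) (h02 : IsCoprime (y + 1) (y ^ 2 + 1))
    (h12 : IsCoprime (y - 1) (y ^ 2 + 1)) (h0t : IsCoprime (y + 1) 10)
    (h1t : IsCoprime (y - 1) 10) (h07 : IsCoprime (y + 1) 7) (h17 : IsCoprime (y - 1) 7)
    (h27 : IsCoprime (y ^ 2 + 1) 7) (i j : Fin 5) (hij : i ≠ j) :
    IsCoprime (tup y i) (tup y j) := by
  have e01 : IsCoprime ((y + 1) ^ 5) (-((y - 1) ^ 5)) := h01.pow.neg_right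
  have e02 : IsCoprime ((y + 1) ^ 5) (-(10 * (y ^ 2 + 1) ^ 2)) :=
    (IsCoprime.mul_right h0t.pow_left h02.pow).neg_right
  have e03 : IsCoprime ((y + 1) ^ 5) (1 : ℤ) := isCoprime_one_right
  have e04 : IsCoprime ((y + 1) ^ 5) (7 : ℤ) := h07.pow_left
  have e12 : IsCoprime (-((y - 1) ^ 5)) (-(10 * (y ^ 2 + 1) ^ 2)) :=
    (IsCoprime.mul_right h1t.pow_left h12.pow).neg_neg
  have e13 : IsCoprime (-((y - 1) ^ 5)) (1 : ℤ) := isCoprime_one_right
  have e14 : IsCoprime (-((y - 1) ^ 5)) (7 : ℤ) := h17.pow_left.neg_left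
  have e23 : IsCoprime (-(10 * (y ^ 2 + 1) ^ 2)) (1 : ℤ) := isCoprime_one_right
  have e24 : IsCoprime (-(10 * (y ^ 2 + 1) ^ 2)) (7 : ℤ) :=
    (IsCoprime.mul_left ⟨5, -7, by norm_num⟩ h27.pow_left).neg_left
  have e34 : IsCoprime (1 : ℤ) (7 : ℤ) := isCoprime_one_left
  have key : ∀ i j : Fin 5, i < j → IsCoprime (tup y i) (tup y j) := by
    intro i j h
    obtain ⟨i, hi⟩ := i
    obtain ⟨j, hj⟩ := j
    rw [Fin.mk_lt_mk] at h
    interval_cases j
    · omega
    · obtain rfl : i = 0 := by omega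
      exact e01
    · rcases (by omega : i = 0 ∨ i = 1) with rfl | rfl
      · exact e02
      · exact e12
    · rcases (by omega : i = 0 ∨ i = 1 ∨ i = 2) with rfl | rfl | rfl
      · exact e03
      · exact e13
      · exact e23
    · rcases (by omega : i = 0 ∨ i = 1 ∨ i = 2 ∨ i = 3) with rfl | rfl | rfl | rfl
      · exact e04
      · exact e14
      · exact e24
      · exact e34
  rcases lt_or_gt_of_ne hij with h | h
  · exact key i j h
  · exact (key j i h).symm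

theorem tup_cop (t : ℕ) (i j : Fin 5) (hij : i ≠ j) :
    IsCoprime (tup (par t) i) (tup (par t) j) := by
  obtain ⟨h01, h02, h12, h0t, h1t, h07, h17, h27⟩ := cops ((t : ℤ) + 1)
  have hp : 210 * ((t : ℤ) + 1) = par t := rfl
  rw [hp] at h01 h02 h12 h0t h1t h07 h17 h27
  exact tup_cop_gen h01 h02 h12 h0t h1t h07 h17 h27 i j hij

theorem prod_dvd (y : ℤ) : ∏ i, tup y i ∣ (70 * (y + 1) * (y - 1) * (y ^ 2 + 1)) ^ 5 := by
  refine ⟨70 ^ 4 * (y ^ 2 + 1) ^ 3, ?_⟩
  simp only [tup, Fin.prod_univ_five]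
  simp
  ring

theorem par_pos (t : ℕ) : 210 ≤ par t := by unfold par; omega

theorem sq_bound {s : ℝ} (hs : 1 ≤ s) : (210 * s) ^ 2 + 1 ≤ 44101 * s ^ 2 := by nlinarith

theorem five_bound {s : ℝ} (hs : 1 ≤ s) : 211 ^ 5 * s ^ 5 ≤ 10 ^ 13 * s ^ 5 :=
  mul_le_mul_of_nonneg_right (by norm_num) (by positivity)

end Pool.Agent.H38.RB.LB.L4a

namespace Pool.Agent.H38.RB.LB

open L4a Finset Pool.Agent.H38.AE.Statement

/-- (L4) -/
theorem L4 : T_L4 := by
  refine ⟨10 ^ 13, fun t => tup (par t), by norm_num, ?_, ?_, ?_, ?_, ?_⟩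
  · intro t t' h
    have h1 : (par t + 1) ^ 5 = (par t' + 1) ^ 5 := congrFun h 0
    have h2 : par t + 1 = par t' + 1 := (Odd.strictMono_pow (by decide : Odd 5)).injective h1
    unfold par at h2
    have h3 : (t : ℤ) = t' := by linarith
    exact_mod_cast h3
  · intro t
    have hp := par_pos t
    refine ⟨?_, tup_cop t, tup_sum _⟩
    intro i
    fin_cases i
    · exact (pow_pos (by linarith : 0 < par t + 1) 5).ne'
    · exact neg_ne_zero.2 (pow_pos (by linarith : 0 < par t - 1) 5).ne'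
    · exact neg_ne_zero.2 (by positivity)
    · exact one_ne_zero
    · exact (by norm_num : (7 : ℤ) ≠ 0)
  · intro t i
    have hs : (1 : ℝ) ≤ (t : ℝ) + 1 := by linarith [Nat.cast_nonneg (α := ℝ) t]
    have hpar : (par t : ℝ) = 210 * ((t : ℝ) + 1) := by unfold par; push_cast; ring
    set s : ℝ := (t : ℝ) + 1 with hsdef
    have h45 : s ^ 4 ≤ s ^ 5 := pow_le_pow_right₀ hs (by norm_num)
    have h15 : 1 ≤ s ^ 5 := one_le_pow₀ hs
    fin_cases i
    · have h0 : ((tup (par t) 0 : ℤ) : ℝ) = (210 * s + 1) ^ 5 := by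
        simp only [tup]
        simp [hpar]
      change |((tup (par t) 0 : ℤ) : ℝ)| ≤ _
      rw [h0, abs_of_nonneg (by positivity)]
      calc (210 * s + 1) ^ 5 ≤ (211 * s) ^ 5 := by gcongr; linarith
        _ = 211 ^ 5 * s ^ 5 := by ring
        _ ≤ 10 ^ 13 * s ^ 5 := five_bound hs
    · have h0 : ((tup (par t) 1 : ℤ) : ℝ) = -((210 * s - 1) ^ 5) := by
        simp only [tup]
        simp [hpar]
      change |((tup (par t) 1 : ℤ) : ℝ)| ≤ _
      rw [h0, abs_neg, abs_of_nonneg (pow_nonneg (by linarith) 5)]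
      calc (210 * s - 1) ^ 5 ≤ (211 * s) ^ 5 := pow_le_pow_left₀ (by linarith) (by linarith) 5
        _ = 211 ^ 5 * s ^ 5 := by ring
        _ ≤ 10 ^ 13 * s ^ 5 := five_bound hs
    · have h0 : ((tup (par t) 2 : ℤ) : ℝ) = -(10 * ((210 * s) ^ 2 + 1) ^ 2) := by
        simp only [tup]
        simp [hpar]
      change |((tup (par t) 2 : ℤ) : ℝ)| ≤ _
      rw [h0, abs_neg, abs_of_nonneg (by positivity)]
      have h1 : (210 * s) ^ 2 + 1 ≤ 44101 * s ^ 2 := sq_bound hs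
      calc 10 * ((210 * s) ^ 2 + 1) ^ 2 ≤ 10 * (44101 * s ^ 2) ^ 2 := by gcongr
        _ = (10 * 44101 ^ 2) * s ^ 4 := by ring
        _ ≤ 10 ^ 13 * s ^ 5 := by gcongr ?_ * ?_; norm_num
    · change |((1 : ℤ) : ℝ)| ≤ _
      norm_num
      linarith
    · change |((7 : ℤ) : ℝ)| ≤ _
      norm_num
      linarith
  · intro t
    refine ⟨0, ?_⟩
    have hpar : (par t : ℝ) = 210 * ((t : ℝ) + 1) := by unfold par; push_cast; ring
    have hs : (1 : ℝ) ≤ (t : ℝ) + 1 := by linarith [Nat.cast_nonneg (α := ℝ) t]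
    have h0 : ((tup (par t) 0 : ℤ) : ℝ) = (210 * ((t : ℝ) + 1) + 1) ^ 5 := by
      simp only [tup]
      simp [hpar]
    change _ ≤ |((tup (par t) 0 : ℤ) : ℝ)|
    rw [h0, abs_of_nonneg (by positivity)]
    gcongr
    linarith
  · intro t
    have hp := par_pos t
    have hk : (70 * (par t + 1) * (par t - 1) * (par t ^ 2 + 1)) ≠ 0 :=
      mul_ne_zero (mul_ne_zero (mul_ne_zero (by norm_num) (by linarith)) (by linarith))
        (by linarith [sq_nonneg (par t)])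
    refine (radical_le 5 hk (prod_dvd (par t))).trans ?_
    have hpar : (par t : ℝ) = 210 * ((t : ℝ) + 1) := by unfold par; push_cast; ring
    have hs : (1 : ℝ) ≤ (t : ℝ) + 1 := by linarith [Nat.cast_nonneg (α := ℝ) t]
    push_cast
    rw [hpar]
    set s : ℝ := (t : ℝ) + 1 with hsdef
    have h1 : (210 * s) ^ 2 + 1 ≤ 44101 * s ^ 2 := sq_bound hs
    have h2 : 0 ≤ 70 * (210 * s + 1) * (210 * s - 1) :=
      mul_nonneg (by positivity) (by linarith)
    rw [abs_of_nonneg (mul_nonneg h2 (by positivity))]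
    clear h2
    calc 70 * (210 * s + 1) * (210 * s - 1) * ((210 * s) ^ 2 + 1)
        ≤ 70 * (211 * s) * (211 * s) * (44101 * s ^ 2) := by
          refine mul_le_mul (mul_le_mul (by linarith) (by linarith) (by linarith) (by positivity))
            h1 (by positivity) (by positivity)
      _ = (70 * 211 * 211 * 44101) * s ^ 4 := by ring
      _ ≤ 10 ^ 13 * s ^ 4 := by gcongr; norm_num

end Pool.Agent.H38.RB.LB
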